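import Mathlib
import Pool.Agent.MP_9eaa6a_an.Defs
import Pool.Agent.Lib.Birkhoff.Pointwise

-- part MP_9eaa6a_an.Fiber
section

/-!
The fibre maps of the skew product: `hmap t x y = y + amp x * beta t y` and their inverses.
-/

set_option autoImplicit false

open Real Set Filter Topology

namespace Pool.Agent.MP_9eaa6a_an

/-- Smoothness of a fibrewise inverse. -/
theorem contDiff_fiber_inverse {X : Type} [NormedAddCommGroup X] [NormedSpace ℝ X]
    [FiniteDimensional ℝ X] {n : ℕ} (hn : 1 ≤ n) (h g : X × ℝ → ℝ) (hh : ContDiff ℝ n h)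
    (hd : ∀ q, fderiv ℝ h q (0, 1) ≠ 0)
    (hl : ∀ q, g (q.1, h q) = q.2) (hr : ∀ q, h (q.1, g q) = q.2) : ContDiff ℝ n g := by
  have : CompleteSpace X := FiniteDimensional.complete ℝ X
  let e : X × ℝ ≃ X × ℝ :=
    { toFun := fun q => (q.1, h q)
      invFun := fun q => (q.1, g q)
      left_inv := fun q => by simp [hl]
      right_inv := fun q => by simp [hr] }
  have hn' : (n : WithTop ℕ∞) ≠ 0 := by
    have : n ≠ 0 := by omega
    exact_mod_cast this
  have he : ContDiff ℝ n e := contDiff_fst.prodMk hh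
  let D : X × ℝ → X × ℝ →L[ℝ] X × ℝ := fun q =>
    (ContinuousLinearMap.fst ℝ X ℝ).prod (fderiv ℝ h q)
  have hinj : ∀ q, Function.Injective (D q).toLinearMap := by
    intro q
    rw [← LinearMap.ker_eq_bot, LinearMap.ker_eq_bot']
    rintro ⟨a, b⟩ hv
    have h1 : a = 0 := congrArg Prod.fst hv
    have h2 : fderiv ℝ h q (a, b) = 0 := congrArg Prod.snd hv
    subst h1
    have h3 : ((0 : X), b) = b • ((0 : X), (1 : ℝ)) := by simp
    rw [h3, map_smul, smul_eq_mul, mul_eq_zero] at h2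
    rcases h2 with h2 | h2
    · simp [h2]
    · exact (hd q h2).elim
  let D' : X × ℝ → (X × ℝ) ≃L[ℝ] (X × ℝ) := fun q =>
    (LinearEquiv.ofInjectiveEndo _ (hinj q)).toContinuousLinearEquiv
  have hD' : ∀ q, (D' q : X × ℝ →L[ℝ] X × ℝ) = D q := fun q => by
    ext1 <;> rfl
  have hs : ∀ q, HasStrictFDerivAt e (D' q : X × ℝ →L[ℝ] X × ℝ) q := by
    intro q
    rw [hD']
    exact hasStrictFDerivAt_fst.prodMk (hh.contDiffAt.hasStrictFDerivAt hn')
  let H := e.toHomeomorphOfContinuousOpen he.continuous (isOpenMap_of_hasStrictFDerivAt_equiv hs)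
  have := H.contDiff_symm (n := n) (fun q => (hs q).hasFDerivAt) he
  exact this.snd

/-- The amplitude of the fibre perturbation. -/
noncomputable def amp (x : ℝ) : ℝ := expNegInvGlue (-sin (4 * π * x)) * sin (2 * π * x)

/-- The shape of the fibre perturbation. -/
noncomputable def beta (t y : ℝ) : ℝ := sin (π * y) * sin (π * (y - t)) / 8

/-- The derivative of `beta t`. -/
noncomputable def dbeta (t y : ℝ) : ℝ := π * sin (π * (2 * y - t)) / 8

/-- The inverse branch in the fibre. -/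
noncomputable def hmap (t x y : ℝ) : ℝ := y + amp x * beta t y

/-- The Jacobian of `hmap t x`. -/
noncomputable def rho (t x y : ℝ) : ℝ := 1 + amp x * dbeta t y

theorem contDiff_amp (n : ℕ) : ContDiff ℝ n amp := by
  unfold amp
  have h : ContDiff ℝ n expNegInvGlue := expNegInvGlue.contDiff (n := n)
  exact (h.comp (by fun_prop)).mul (by fun_prop)

theorem expNegInvGlue_le_one (x : ℝ) : expNegInvGlue x ≤ 1 := by
  unfold expNegInvGlue
  split_ifs with h
  · norm_num
  · rw [exp_le_one_iff, neg_nonpos]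
    exact inv_nonneg.2 (not_le.1 h).le

theorem abs_amp_le (x : ℝ) : |amp x| ≤ 1 := by
  unfold amp
  rw [abs_mul, abs_of_nonneg (expNegInvGlue.nonneg _)]
  exact mul_le_one₀ (expNegInvGlue_le_one _) (abs_nonneg _) (abs_sin_le_one _)

theorem amp_add_half (x : ℝ) : amp (x + 1 / 2) = -amp x := by
  unfold amp
  have h1 : 4 * π * (x + 1 / 2) = 4 * π * x + 2 * π := by ring
  have h2 : 2 * π * (x + 1 / 2) = 2 * π * x + π := by ring
  rw [h1, h2, sin_add_two_pi, sin_add_pi, mul_neg]

theorem amp_periodic : Function.Periodic amp 1 := by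
  intro x
  have : x + 1 = x + 1 / 2 + 1 / 2 := by ring
  rw [this, amp_add_half, amp_add_half, neg_neg]

theorem amp_add_int (x : ℝ) (m : ℤ) : amp (x + m) = amp x := by
  simpa using amp_periodic.int_mul m x

theorem amp_eq_zero {x : ℝ} (h0 : 0 ≤ x) (h1 : x ≤ 1 / 4) : amp x = 0 := by
  unfold amp
  rw [expNegInvGlue.zero_of_nonpos, zero_mul]
  rw [neg_nonpos]
  have := pi_pos
  exact sin_nonneg_of_nonneg_of_le_pi (by positivity) (by nlinarith)

theorem amp_ne_zero {x : ℝ} (h : sin (4 * π * x) < 0) : amp x ≠ 0 := by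
  unfold amp
  refine mul_ne_zero (expNegInvGlue.pos_of_pos (by linarith)).ne' fun h0 => ?_
  have : 4 * π * x = 2 * (2 * π * x) := by ring
  rw [this, sin_two_mul, h0] at h
  simp at h

theorem amp_pos {x : ℝ} (h0 : 1 / 4 < x) (h1 : x < 1 / 2) : 0 < amp x := by
  unfold amp
  have := pi_pos
  refine mul_pos (expNegInvGlue.pos_of_pos ?_)
    (sin_pos_of_pos_of_lt_pi (by nlinarith) (by nlinarith))
  have h2 : 4 * π * x = (4 * π * x - π) + π := by ring
  rw [h2, sin_add_pi, neg_neg]
  exact sin_pos_of_pos_of_lt_pi (by nlinarith) (by nlinarith)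

theorem hasDerivAt_beta (t y : ℝ) : HasDerivAt (beta t) (dbeta t y) y := by
  unfold beta dbeta
  have h1 : HasDerivAt (fun y => sin (π * y)) (cos (π * y) * π) y := by
    simpa using ((hasDerivAt_id y).const_mul π).sin
  have h2 : HasDerivAt (fun y => sin (π * (y - t))) (cos (π * (y - t)) * π) y := by
    simpa using (((hasDerivAt_id y).sub_const t).const_mul π).sin
  refine ((h1.mul h2).div_const 8).congr_deriv ?_
  have : π * (2 * y - t) = π * y + π * (y - t) := by ring
  rw [this, sin_add]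
  ring

theorem abs_dbeta_le (t y : ℝ) : |dbeta t y| ≤ 1 / 2 := by
  unfold dbeta
  have h1 := abs_sin_le_one (π * (2 * y - t))
  have h2 := pi_lt_four
  have h3 := pi_pos
  rw [abs_div, abs_mul, abs_of_pos h3, abs_of_pos (by norm_num : (0 : ℝ) < 8)]
  have := abs_nonneg (sin (π * (2 * y - t)))
  nlinarith

theorem abs_beta_le (t y : ℝ) : |beta t y| ≤ 1 := by
  unfold beta
  have h1 := abs_sin_le_one (π * y)
  have h2 := abs_sin_le_one (π * (y - t))
  rw [abs_div, abs_mul, abs_of_pos (by norm_num : (0 : ℝ) < 8)]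
  have := mul_le_one₀ h1 (abs_nonneg _) h2
  linarith

theorem beta_periodic (t : ℝ) : Function.Periodic (beta t) 1 := by
  intro y
  unfold beta
  have h1 : π * (y + 1) = π * y + π := by ring
  have h2 : π * (y + 1 - t) = π * (y - t) + π := by ring
  rw [h1, h2, sin_add_pi, sin_add_pi]
  ring

theorem beta_add_int (t y : ℝ) (m : ℤ) : beta t (y + m) = beta t y := by
  simpa using (beta_periodic t).int_mul m y

theorem dbeta_periodic (t : ℝ) : Function.Periodic (dbeta t) 1 := by
  intro y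
  unfold dbeta
  have h1 : π * (2 * (y + 1) - t) = π * (2 * y - t) + 2 * π := by ring
  rw [h1, sin_add_two_pi]

theorem dbeta_add_int (t y : ℝ) (m : ℤ) : dbeta t (y + m) = dbeta t y := by
  simpa using (dbeta_periodic t).int_mul m y

theorem beta_zero (t : ℝ) : beta t 0 = 0 := by simp [beta]

theorem beta_self (t : ℝ) : beta t t = 0 := by simp [beta]

theorem beta_one (t : ℝ) : beta t 1 = 0 := by simp [beta]

theorem beta_zero_pos {y : ℝ} (h0 : 0 < y) (h1 : y < 1) : 0 < beta 0 y := by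
  unfold beta
  have := pi_pos
  have h : 0 < sin (π * y) := sin_pos_of_pos_of_lt_pi (by positivity) (by nlinarith)
  rw [sub_zero]
  positivity

theorem abs_amp_mul_dbeta_le (t x y : ℝ) : |amp x * dbeta t y| ≤ 1 / 2 := by
  rw [abs_mul]
  have h1 := abs_amp_le x
  have h2 := abs_dbeta_le t y
  have := abs_nonneg (amp x)
  have := abs_nonneg (dbeta t y)
  nlinarith

theorem half_le_rho (t x y : ℝ) : 1 / 2 ≤ rho t x y := by
  have := (abs_le.1 (abs_amp_mul_dbeta_le t x y)).1
  unfold rho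
  linarith

theorem rho_le (t x y : ℝ) : rho t x y ≤ 3 / 2 := by
  have := (abs_le.1 (abs_amp_mul_dbeta_le t x y)).2
  unfold rho
  linarith

theorem rho_pos (t x y : ℝ) : 0 < rho t x y := lt_of_lt_of_le (by norm_num) (half_le_rho t x y)

theorem hasDerivAt_hmap (t x y : ℝ) : HasDerivAt (hmap t x) (rho t x y) y :=
  (hasDerivAt_id y).add ((hasDerivAt_beta t y).const_mul (amp x))

theorem strictMono_hmap (t x : ℝ) : StrictMono (hmap t x) :=
  strictMono_of_deriv_pos fun y => by rw [(hasDerivAt_hmap t x y).deriv]; exact rho_pos t x y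

theorem continuous_hmap (t x : ℝ) : Continuous (hmap t x) :=
  continuous_iff_continuousAt.2 fun y => (hasDerivAt_hmap t x y).continuousAt

theorem hmap_add_int (t x y : ℝ) (m n : ℤ) : hmap t (x + m) (y + n) = hmap t x y + n := by
  unfold hmap
  rw [amp_add_int, beta_add_int]
  ring

theorem surjective_hmap (t x : ℝ) : Function.Surjective (hmap t x) := by
  have hb : ∀ y, |amp x * beta t y| ≤ 1 := fun y => by
    rw [abs_mul]
    exact mul_le_one₀ (abs_amp_le x) (abs_nonneg _) (abs_beta_le t y)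
  intro y
  have h := intermediate_value_Icc (a := y - 1) (b := y + 1) (by linarith)
    (continuous_hmap t x).continuousOn
  have h1 := (abs_le.1 (hb (y - 1))).2
  have h2 := (abs_le.1 (hb (y + 1))).1
  obtain ⟨z, -, hz⟩ := h (show y ∈ Icc _ _ from ⟨by unfold hmap; linarith, by unfold hmap; linarith⟩)
  exact ⟨z, hz⟩

/-- The fibre map. -/
noncomputable def gmap (t x : ℝ) : ℝ → ℝ := Function.invFun (hmap t x)

theorem gmap_hmap (t x y : ℝ) : gmap t x (hmap t x y) = y :=
  Function.leftInverse_invFun (strictMono_hmap t x).injective y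

theorem hmap_gmap (t x y : ℝ) : hmap t x (gmap t x y) = y :=
  Function.rightInverse_invFun (surjective_hmap t x) y

theorem strictMono_gmap (t x : ℝ) : StrictMono (gmap t x) := by
  intro a b hab
  rw [← (strictMono_hmap t x).lt_iff_lt, hmap_gmap, hmap_gmap]
  exact hab

theorem gmap_add_int (t x y : ℝ) (m n : ℤ) : gmap t (x + m) (y + n) = gmap t x y + n := by
  apply (strictMono_hmap t (x + m)).injective
  rw [hmap_gmap, hmap_add_int, hmap_gmap]

theorem gmap_of_beta_eq_zero (t x : ℝ) {y : ℝ} (h : beta t y = 0) : gmap t x y = y := by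
  conv_lhs => rw [show y = hmap t x y by simp [hmap, h]]
  exact gmap_hmap t x y

theorem gmap_of_amp_eq_zero (t : ℝ) {x : ℝ} (h : amp x = 0) (y : ℝ) : gmap t x y = y := by
  conv_lhs => rw [show y = hmap t x y by simp [hmap, h]]
  exact gmap_hmap t x y

theorem contDiff_hmap (n : ℕ) : ContDiff ℝ n fun q : (ℝ × ℝ) × ℝ => hmap q.1.1 q.1.2 q.2 := by
  unfold hmap beta
  have := contDiff_amp n
  fun_prop

theorem contDiff_gmap (n : ℕ) : ContDiff ℝ n fun q : (ℝ × ℝ) × ℝ => gmap q.1.1 q.1.2 q.2 := by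
  have key : ContDiff ℝ ((n + 1 : ℕ) : WithTop ℕ∞)
      fun q : (ℝ × ℝ) × ℝ => gmap q.1.1 q.1.2 q.2 := by
    refine contDiff_fiber_inverse (X := ℝ × ℝ) (n := n + 1) (by omega)
      (fun q => hmap q.1.1 q.1.2 q.2) (fun q => gmap q.1.1 q.1.2 q.2)
      (contDiff_hmap _) (fun q => ?_) (fun q => by dsimp only; rw [gmap_hmap])
      (fun q => by dsimp only; rw [hmap_gmap])
    have h1 : HasFDerivAt (fun q : (ℝ × ℝ) × ℝ => hmap q.1.1 q.1.2 q.2)
        (fderiv ℝ (fun q : (ℝ × ℝ) × ℝ => hmap q.1.1 q.1.2 q.2) q) (q.1, q.2) :=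
      ((contDiff_hmap 1).differentiable (by simp) q).hasFDerivAt
    have h2 : HasDerivAt (fun y : ℝ => (q.1, y)) ((0 : ℝ × ℝ), (1 : ℝ)) q.2 :=
      (hasDerivAt_const _ _).prodMk (hasDerivAt_id _)
    have h3 := h1.comp_hasDerivAt q.2 h2
    have h4 := h3.unique (hasDerivAt_hmap q.1.1 q.1.2 q.2)
    rw [h4]
    exact (rho_pos _ _ _).ne'
  exact key.of_le (by exact_mod_cast Nat.le_succ n)

theorem continuous_gmap : Continuous fun q : (ℝ × ℝ) × ℝ => gmap q.1.1 q.1.2 q.2 :=
  (contDiff_gmap 0).continuous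

end Pool.Agent.MP_9eaa6a_an

end

-- part MP_9eaa6a_an.Plane
section

/-!
The lifted skew product `Fm t (x, y) = (4 x, gmap t x y)` on the plane and its derivative, and
descent of periodic functions to the torus.
-/

set_option autoImplicit false

open Real Set Filter Topology

namespace Pool.Agent.MP_9eaa6a_an

/-- The lifted map. -/
noncomputable def Fm (t : ℝ) (p : ℝ × ℝ) : ℝ × ℝ := (4 * p.1, gmap t p.1 p.2)

/-- The vertical derivative of the fibre map. -/
noncomputable def wv (t : ℝ) (p : ℝ × ℝ) : ℝ := (rho t p.1 (gmap t p.1 p.2))⁻¹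

/-- The horizontal derivative of the fibre map. -/
noncomputable def uv (t : ℝ) (p : ℝ × ℝ) : ℝ :=
  -(deriv amp p.1 * beta t (gmap t p.1 p.2)) * wv t p

theorem contDiff_gmap' (t : ℝ) (n : ℕ) : ContDiff ℝ n fun p : ℝ × ℝ => gmap t p.1 p.2 :=
  (contDiff_gmap n).comp (f := fun p : ℝ × ℝ => ((t, p.1), p.2)) (by fun_prop)

theorem contDiff_Fm (t : ℝ) (n : ℕ) : ContDiff ℝ n (Fm t) :=
  (contDiff_const.mul contDiff_fst).prodMk (contDiff_gmap' t n)

theorem differentiable_Fm (t : ℝ) : Differentiable ℝ (Fm t) :=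
  (contDiff_Fm t 1).differentiable (by simp)

theorem fderiv_Fm_apply (t : ℝ) (p v : ℝ × ℝ) :
    fderiv ℝ (Fm t) p v = (4 * v.1, uv t p * v.1 + wv t p * v.2) := by
  have hg : HasFDerivAt (fun p : ℝ × ℝ => gmap t p.1 p.2)
      (fderiv ℝ (fun p : ℝ × ℝ => gmap t p.1 p.2) p) p :=
    ((contDiff_gmap' t 1).differentiable (by simp) p).hasFDerivAt
  set D := fderiv ℝ (fun p : ℝ × ℝ => gmap t p.1 p.2) p with hD
  have ha : HasFDerivAt (fun p : ℝ × ℝ => amp p.1)
      (deriv amp p.1 • ContinuousLinearMap.fst ℝ ℝ ℝ) p :=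
    (((contDiff_amp 1).differentiable (by simp) p.1).hasDerivAt).comp_hasFDerivAt p
      hasFDerivAt_fst
  have hb : HasFDerivAt (fun p : ℝ × ℝ => beta t (gmap t p.1 p.2))
      (dbeta t (gmap t p.1 p.2) • D) p :=
    (hasDerivAt_beta t _).comp_hasFDerivAt p hg
  have h1 := hg.add (ha.mul hb)
  have h2 : (fun p : ℝ × ℝ => gmap t p.1 p.2) +
      (fun p : ℝ × ℝ => amp p.1) * (fun p : ℝ × ℝ => beta t (gmap t p.1 p.2)) = Prod.snd := by
    funext q
    exact hmap_gmap t q.1 q.2
  rw [h2] at h1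
  have h3 := congrArg (fun L : ℝ × ℝ →L[ℝ] ℝ => L v) (h1.unique hasFDerivAt_snd)
  simp only [add_apply, smul_apply, smul_eq_mul,
    ContinuousLinearMap.coe_fst', ContinuousLinearMap.coe_snd'] at h3
  have h4 : HasFDerivAt (Fm t) (((4 : ℝ) • ContinuousLinearMap.fst ℝ ℝ ℝ).prod D) p :=
    (hasFDerivAt_fst.const_mul (4 : ℝ)).prodMk hg
  rw [h4.fderiv]
  simp only [ContinuousLinearMap.prod_apply, smul_apply, smul_eq_mul,
    ContinuousLinearMap.coe_fst', Prod.mk.injEq, true_and]
  have h5 := (rho_pos t p.1 (gmap t p.1 p.2)).ne'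
  unfold uv wv
  field_simp
  unfold rho
  linarith

theorem wv_pos (t : ℝ) (p : ℝ × ℝ) : 0 < wv t p := inv_pos.2 (rho_pos _ _ _)

theorem wv_le (t : ℝ) (p : ℝ × ℝ) : wv t p ≤ 2 := by
  unfold wv
  rw [inv_le_comm₀ (rho_pos _ _ _) (by norm_num)]
  simpa using half_le_rho t p.1 (gmap t p.1 p.2)

theorem det_fderiv_Fm (t : ℝ) (p : ℝ × ℝ) : (fderiv ℝ (Fm t) p).det ≠ 0 := by
  unfold ContinuousLinearMap.det
  intro h
  rw [LinearMap.det_eq_zero_iff_ker_ne_bot] at h
  apply h
  rw [LinearMap.ker_eq_bot']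
  rintro ⟨a, b⟩ hv
  have h1 : fderiv ℝ (Fm t) p (a, b) = 0 := hv
  rw [fderiv_Fm_apply, Prod.mk_eq_zero] at h1
  have ha : a = 0 := by linarith [h1.1]
  have hb := h1.2
  simp only [ha, mul_zero, zero_add, mul_eq_zero, (wv_pos t p).ne', false_or] at hb
  simp [ha, hb]

/-- Invariance under integer translations. -/
def Per {β : Type} (u : ℝ × ℝ → β) : Prop := ∀ (p : ℝ × ℝ) (m n : ℤ), u (p.1 + m, p.2 + n) = u p

theorem coe_add_int (x : ℝ) (m : ℤ) : ((x + m : ℝ) : UnitAddCircle) = (x : UnitAddCircle) := by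
  rw [AddCircle.coe_add, add_eq_left, AddCircle.coe_eq_zero_iff]
  exact ⟨m, by simp⟩

theorem coe_eq_coe_iff {x y : ℝ} :
    (x : UnitAddCircle) = (y : UnitAddCircle) ↔ ∃ m : ℤ, y = x + m := by
  constructor
  · intro h
    have h1 : ((y - x : ℝ) : UnitAddCircle) = 0 := by rw [AddCircle.coe_sub, h, sub_self]
    obtain ⟨m, hm⟩ := (AddCircle.coe_eq_zero_iff _).1 h1
    refine ⟨m, ?_⟩
    simp only [zsmul_eq_mul, mul_one] at hm
    linarith
  · rintro ⟨m, rfl⟩
    exact (coe_add_int x m).symm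

theorem per_proj : Per proj := by
  intro p m n
  simp only [proj, coe_add_int]

theorem proj_eq_iff {p q : ℝ × ℝ} : proj p = proj q ↔ ∃ m n : ℤ, q = (p.1 + m, p.2 + n) := by
  constructor
  · intro h
    obtain ⟨h1, h2⟩ := Prod.mk.inj h
    obtain ⟨m, hm⟩ := coe_eq_coe_iff.1 h1
    obtain ⟨n, hn⟩ := coe_eq_coe_iff.1 h2
    exact ⟨m, n, Prod.ext hm hn⟩
  · rintro ⟨m, n, rfl⟩
    exact (per_proj p m n).symm

theorem isOpenQuotientMap_proj : IsOpenQuotientMap proj :=
  QuotientAddGroup.isOpenQuotientMap_mk.prodMap QuotientAddGroup.isOpenQuotientMap_mk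

theorem surjective_proj : Function.Surjective proj := isOpenQuotientMap_proj.surjective

theorem continuous_proj : Continuous proj := isOpenQuotientMap_proj.continuous

theorem exists_proj_eq_Ico (z : Torus) : ∃ p : ℝ × ℝ, p.1 ∈ Ico (0 : ℝ) 1 ∧ p.2 ∈ Ico (0 : ℝ) 1 ∧
    proj p = z := by
  obtain ⟨q, rfl⟩ := surjective_proj z
  refine ⟨(Int.fract q.1, Int.fract q.2), ⟨Int.fract_nonneg _, Int.fract_lt_one _⟩,
    ⟨Int.fract_nonneg _, Int.fract_lt_one _⟩, proj_eq_iff.2 ⟨⌊q.1⌋, ⌊q.2⌋, ?_⟩⟩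
  simp

/-- Descent of a function on the plane to the torus. -/
noncomputable def desc {β : Type} (u : ℝ × ℝ → β) (z : Torus) : β :=
  u (Function.surjInv surjective_proj z)

theorem desc_proj {β : Type} {u : ℝ × ℝ → β} (hu : Per u) (p : ℝ × ℝ) : desc u (proj p) = u p := by
  obtain ⟨m, n, h⟩ := proj_eq_iff.1 (Function.surjInv_eq surjective_proj (proj p)).symm
  unfold desc
  rw [h, hu]

theorem continuous_desc {β : Type} [TopologicalSpace β] {u : ℝ × ℝ → β} (hu : Per u)
    (hc : Continuous u) : Continuous (desc u) := by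
  rw [isOpenQuotientMap_proj.isQuotientMap.continuous_iff]
  have : desc u ∘ proj = u := funext (desc_proj hu)
  rwa [this]

theorem exists_bound {u : ℝ × ℝ → ℝ} (hu : Per u) (hc : Continuous u) :
    ∃ M, 0 ≤ M ∧ ∀ p, |u p| ≤ M := by
  obtain ⟨M, hM⟩ := isCompact_univ.exists_bound_of_continuousOn
    (continuous_desc hu hc).continuousOn
  refine ⟨max M 0, le_max_right _ _, fun p => ?_⟩
  have := hM (proj p) (mem_univ _)
  rw [desc_proj hu] at this
  exact le_trans this (le_max_left _ _)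

theorem uniform_small (k : ℝ → ℝ × ℝ → ℝ) (hc : Continuous fun q : ℝ × (ℝ × ℝ) => k q.1 q.2)
    (hp : ∀ t, Per (k t)) (h0 : ∀ p, k 0 p = 0) {ε : ℝ} (hε : 0 < ε) :
    ∀ᶠ t in 𝓝 (0 : ℝ), ∀ p, k t p < ε := by
  have hK : IsCompact (Icc (0 : ℝ) 1 ×ˢ Icc (0 : ℝ) 1) := isCompact_Icc.prod isCompact_Icc
  have h := hK.eventually_forall_of_forall_eventually (x₀ := (0 : ℝ))
    (P := fun t p => k t p < ε) (fun p _ => by
      have h1 : k 0 p < ε := by rw [h0]; exact hε
      exact hc.continuousAt.eventually_lt continuousAt_const h1)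
  filter_upwards [h] with t ht p
  obtain ⟨q, h1, h2, h3⟩ := exists_proj_eq_Ico (proj p)
  obtain ⟨m, n, rfl⟩ := proj_eq_iff.1 h3
  rw [hp]
  exact ht q ⟨Ico_subset_Icc_self h1, Ico_subset_Icc_self h2⟩

theorem per_proj_Fm (t : ℝ) : Per fun p => proj (Fm t p) := by
  intro p m n
  refine (proj_eq_iff.2 ⟨4 * m, n, ?_⟩).symm
  simp only [Fm, gmap_add_int]
  push_cast
  congr 1
  ring

theorem per_wv (t : ℝ) : Per (wv t) := by
  intro p m n
  simp only [wv, rho, gmap_add_int, amp_add_int, dbeta_add_int]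

theorem deriv_amp_add_int (x : ℝ) (m : ℤ) : deriv amp (x + m) = deriv amp x := by
  rw [← deriv_comp_add_const]
  congr 1
  funext y
  exact amp_add_int y m

theorem per_uv (t : ℝ) : Per (uv t) := by
  intro p m n
  have := per_wv t p m n
  simp only [uv, gmap_add_int, deriv_amp_add_int, beta_add_int, this]

theorem continuous_gmap' : Continuous fun q : ℝ × (ℝ × ℝ) => gmap q.1 q.2.1 q.2.2 :=
  continuous_gmap.comp (f := fun q : ℝ × (ℝ × ℝ) => ((q.1, q.2.1), q.2.2)) (by fun_prop)

theorem continuous_wv : Continuous fun q : ℝ × (ℝ × ℝ) => wv q.1 q.2 := by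
  unfold wv
  refine Continuous.inv₀ ?_ fun q => (rho_pos _ _ _).ne'
  unfold rho dbeta
  have h1 := continuous_gmap'
  have h2 := (contDiff_amp 0).continuous
  fun_prop

theorem continuous_uv : Continuous fun q : ℝ × (ℝ × ℝ) => uv q.1 q.2 := by
  unfold uv beta
  have h1 := continuous_gmap'
  have h2 : Continuous (deriv amp) := (contDiff_amp 1).continuous_deriv (by simp)
  have h3 := continuous_wv
  fun_prop

/-- The map of the torus. -/
noncomputable def fm (t : ℝ) : Torus → Torus := desc fun p => proj (Fm t p)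

theorem fm_proj (t : ℝ) (p : ℝ × ℝ) : fm t (proj p) = proj (Fm t p) := desc_proj (per_proj_Fm t) p

theorem continuous_fm (t : ℝ) : Continuous (fm t) :=
  continuous_desc (per_proj_Fm t) (continuous_proj.comp (contDiff_Fm t 0).continuous)

theorem iterate_fm_proj (t : ℝ) (n : ℕ) (p : ℝ × ℝ) :
    (fm t)^[n] (proj p) = proj ((Fm t)^[n] p) := by
  induction n generalizing p with
  | zero => rfl
  | succ n ih => rw [Function.iterate_succ_apply, fm_proj, ih, Function.iterate_succ_apply]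

theorem not_injective_fm (t : ℝ) : ¬ Function.Injective (fm t) := by
  intro h
  have h1 : fm t (proj (0, 0)) = fm t (proj (1 / 2, 0)) := by
    rw [fm_proj, fm_proj]
    refine proj_eq_iff.2 ⟨2, 0, ?_⟩
    simp only [Fm, gmap_of_beta_eq_zero t _ (beta_zero t)]
    norm_num
  obtain ⟨m, n, h2⟩ := proj_eq_iff.1 (h h1)
  have h3 : (1 / 2 : ℝ) = 0 + m := congrArg Prod.fst h2
  have h4 : (1 : ℝ) = 2 * m := by linarith
  have h5 : (1 : ℤ) = 2 * m := by exact_mod_cast h4
  omega

end Pool.Agent.MP_9eaa6a_an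

end

-- part MP_9eaa6a_an.Measure
section

/-!
Change of variables for the skew product: preservation of area, and negativity of the integral of
the logarithm of the vertical derivative on invariant sets.
-/

set_option autoImplicit false

open Real Set Filter Topology MeasureTheory

namespace Pool.Agent.MP_9eaa6a_an

theorem isProb_circle : IsProbabilityMeasure (volume : Measure UnitAddCircle) :=
  ⟨UnitAddCircle.measure_univ⟩

theorem isProb_torus : IsProbabilityMeasure (volume : Measure Torus) := by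
  have := isProb_circle
  exact inferInstanceAs (IsProbabilityMeasure
    ((volume : Measure UnitAddCircle).prod (volume : Measure UnitAddCircle)))

theorem isHaar_torus : (volume : Measure Torus).IsAddHaarMeasure :=
  inferInstanceAs ((volume : Measure UnitAddCircle).prod
    (volume : Measure UnitAddCircle)).IsAddHaarMeasure

attribute [local instance] isProb_circle isProb_torus isHaar_torus

/-- The fibre diffeomorphism of the torus. -/
noncomputable def Gm (t : ℝ) : Torus → Torus := desc fun p => proj (p.1, gmap t p.1 p.2)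

/-- The Jacobian as a function on the torus. -/
noncomputable def rhoT (t : ℝ) : Torus → ℝ := desc fun p => rho t p.1 p.2

/-- The linear part. -/
noncomputable def Lm (z : Torus) : Torus := ((4 : ℤ) • z.1, z.2)

theorem per_G (t : ℝ) : Per fun p : ℝ × ℝ => proj (p.1, gmap t p.1 p.2) := by
  intro p m n
  refine (proj_eq_iff.2 ⟨m, n, ?_⟩).symm
  simp only [gmap_add_int]

theorem per_rho (t : ℝ) : Per fun p : ℝ × ℝ => rho t p.1 p.2 := by
  intro p m n
  simp only [rho, amp_add_int, dbeta_add_int]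

theorem Gm_proj (t : ℝ) (p : ℝ × ℝ) : Gm t (proj p) = proj (p.1, gmap t p.1 p.2) :=
  desc_proj (per_G t) p

theorem rhoT_proj (t : ℝ) (p : ℝ × ℝ) : rhoT t (proj p) = rho t p.1 p.2 :=
  desc_proj (per_rho t) p

theorem continuous_Gm (t : ℝ) : Continuous (Gm t) :=
  continuous_desc (per_G t)
    (continuous_proj.comp (continuous_fst.prodMk (contDiff_gmap' t 0).continuous))

theorem continuous_rhoT (t : ℝ) : Continuous (rhoT t) := by
  refine continuous_desc (per_rho t) ?_
  unfold rho dbeta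
  have h2 := (contDiff_amp 0).continuous
  fun_prop

theorem half_le_rhoT (t : ℝ) (z : Torus) : 1 / 2 ≤ rhoT t z := half_le_rho _ _ _

theorem rhoT_le (t : ℝ) (z : Torus) : rhoT t z ≤ 3 / 2 := rho_le _ _ _

theorem Lm_proj (p : ℝ × ℝ) : Lm (proj p) = proj (4 * p.1, p.2) := by
  simp only [Lm, proj, Prod.mk.injEq, and_true]
  rw [← AddCircle.coe_zsmul]
  simp

theorem fm_eq (t : ℝ) (z : Torus) : fm t z = Lm (Gm t z) := by
  obtain ⟨p, rfl⟩ := surjective_proj z
  rw [fm_proj, Gm_proj, Lm_proj]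
  rfl

theorem measurePreserving_Lm : MeasurePreserving Lm (volume : Measure Torus) volume :=
  (Measure.measurePreserving_zsmul (volume : Measure UnitAddCircle) (n := 4) (by norm_num)).prod
    (MeasurePreserving.id (volume : Measure UnitAddCircle))

theorem integrable_of_bound {Φ : Torus → ℝ} (hm : Measurable Φ) {C : ℝ} (hC : ∀ z, |Φ z| ≤ C) :
    Integrable Φ (volume : Measure Torus) :=
  Integrable.of_bound hm.aestronglyMeasurable C (Eventually.of_forall hC)

theorem image_hmap (t x : ℝ) : hmap t x '' Ioc 0 1 = Ioc 0 1 := by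
  have h0 : hmap t x 0 = 0 := by simp [hmap, beta_zero]
  have h1 : hmap t x 1 = 1 := by simp [hmap, beta_one]
  ext y
  constructor
  · rintro ⟨z, hz, rfl⟩
    exact ⟨h0 ▸ strictMono_hmap t x hz.1, h1 ▸ (strictMono_hmap t x).monotone hz.2⟩
  · intro hy
    obtain ⟨z, rfl⟩ := surjective_hmap t x y
    refine ⟨z, ⟨?_, ?_⟩, rfl⟩
    · rw [← (strictMono_hmap t x).lt_iff_lt, h0]; exact hy.1
    · rw [← (strictMono_hmap t x).le_iff_le, h1]; exact hy.2

/-- Change of variables along the fibres. -/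
theorem cov (t : ℝ) {Φ : Torus → ℝ} (hm : Measurable Φ) {C : ℝ} (hC : ∀ z, |Φ z| ≤ C) :
    ∫ z, Φ (Gm t z) = ∫ z, Φ z * rhoT t z := by
  have i1 : Integrable (fun z => Φ (Gm t z)) (volume : Measure Torus) :=
    integrable_of_bound (hm.comp (continuous_Gm t).measurable) fun z => hC _
  have i2 : Integrable (fun z => Φ z * rhoT t z) (volume : Measure Torus) := by
    refine integrable_of_bound (hm.mul (continuous_rhoT t).measurable) (C := C * (3 / 2))
      fun z => ?_
    rw [abs_mul]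
    refine mul_le_mul (hC z) ?_ (abs_nonneg _) ((abs_nonneg _).trans (hC z))
    rw [abs_of_nonneg (le_trans (by norm_num) (half_le_rhoT t z))]
    exact rhoT_le t z
  rw [Measure.volume_eq_prod] at i1 i2 ⊢
  rw [integral_prod _ i1, integral_prod _ i2]
  congr 1
  funext x
  obtain ⟨x, rfl⟩ := QuotientAddGroup.mk_surjective x
  rw [← UnitAddCircle.integral_preimage 0, ← UnitAddCircle.integral_preimage 0, zero_add]
  conv_lhs => rw [← image_hmap t x]
  rw [integral_image_eq_integral_abs_deriv_smul measurableSet_Ioc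
    (fun y _ => (hasDerivAt_hmap t x y).hasDerivWithinAt) (strictMono_hmap t x).injective.injOn]
  congr 1
  funext y
  have e1 := Gm_proj t (x, hmap t x y)
  have e2 := rhoT_proj t (x, y)
  simp only [proj, gmap_hmap] at e1 e2
  rw [e1, e2, abs_of_pos (rho_pos t x y), smul_eq_mul, mul_comm]

/-- The horizontal shift by `s`. -/
noncomputable def sh (s : ℝ) : Torus := proj (s, 0)

theorem proj_add_sh (p : ℝ × ℝ) (s : ℝ) : proj p + sh s = proj (p.1 + s, p.2) := by
  simp [sh, proj]

theorem Lm_add_sh (z : Torus) (k : ℤ) : Lm (z + sh (k / 4)) = Lm z := by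
  obtain ⟨p, rfl⟩ := surjective_proj z
  rw [proj_add_sh, Lm_proj, Lm_proj]
  refine (proj_eq_iff.2 ⟨k, 0, ?_⟩).symm
  simp only [Int.cast_zero, add_zero, Prod.mk.injEq, and_true]
  ring

theorem integral_shift (Ψ κ : Torus → ℝ) (k : ℤ) :
    ∫ z, Ψ (Lm z) * κ z = ∫ z, Ψ (Lm z) * κ (z + sh (k / 4)) := by
  rw [← integral_add_right_eq_self (fun z => Ψ (Lm z) * κ z) (sh (k / 4))]
  simp only [Lm_add_sh]

theorem rhoT_add_half (t : ℝ) (z : Torus) : rhoT t (z + sh ((2 : ℤ) / 4)) = 2 - rhoT t z := by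
  obtain ⟨p, rfl⟩ := surjective_proj z
  rw [proj_add_sh, rhoT_proj, rhoT_proj]
  have : (((2 : ℤ) : ℝ) / 4) = 1 / 2 := by norm_num
  simp only [rho, this, amp_add_half]
  ring

theorem abs_indicator_le (A : Set Torus) (z : Torus) : |A.indicator (1 : Torus → ℝ) z| ≤ 1 := by
  by_cases h : z ∈ A <;> simp [h]

theorem measurePreserving_fm (t : ℝ) :
    MeasurePreserving (fm t) (volume : Measure Torus) volume := by
  refine ⟨(continuous_fm t).measurable, ?_⟩
  ext A hA
  rw [Measure.map_apply (continuous_fm t).measurable hA,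
    ← measureReal_eq_measureReal_iff (measure_ne_top _ _) (measure_ne_top _ _),
    ← integral_indicator_one hA, ← integral_indicator_one ((continuous_fm t).measurable hA)]
  have hΨ : Measurable (A.indicator (1 : Torus → ℝ)) := measurable_one.indicator hA
  have hΨL : Measurable fun z => A.indicator (1 : Torus → ℝ) (Lm z) :=
    hΨ.comp measurePreserving_Lm.measurable
  have h1 : ∫ z, (fm t ⁻¹' A).indicator (1 : Torus → ℝ) z =
      ∫ z, A.indicator (1 : Torus → ℝ) (Lm z) * rhoT t z := by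
    rw [← cov t hΨL fun z => abs_indicator_le A _]
    congr 1
    funext z
    rw [← fm_eq]
    rfl
  have h2 := integral_shift (A.indicator 1) (rhoT t) 2
  simp only [rhoT_add_half, mul_sub] at h2
  have i1 : Integrable (fun z => A.indicator (1 : Torus → ℝ) (Lm z)) (volume : Measure Torus) :=
    integrable_of_bound hΨL fun z => abs_indicator_le A _
  have i2 : Integrable (fun z => A.indicator (1 : Torus → ℝ) (Lm z) * rhoT t z)
      (volume : Measure Torus) :=
    i1.mul_bdd (c := 3 / 2) (continuous_rhoT t).aestronglyMeasurable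
      (Eventually.of_forall fun z => by
        rw [Real.norm_eq_abs, abs_of_nonneg (le_trans (by norm_num) (half_le_rhoT t z))]
        exact rhoT_le t z)
  rw [integral_sub (i1.mul_const 2) i2, integral_mul_const] at h2
  have h3 : ∫ z, A.indicator (1 : Torus → ℝ) (Lm z) = ∫ z, A.indicator (1 : Torus → ℝ) z := by
    conv_rhs => rw [← measurePreserving_Lm.map_eq]
    rw [integral_map measurePreserving_Lm.measurable.aemeasurable hΨ.aestronglyMeasurable]
  linarith

/-- The logarithm of the vertical derivative. -/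
noncomputable def phiT (z : Torus) : ℝ := -log (rhoT 0 (Gm 0 z))

theorem continuous_log_rhoT : Continuous fun z => log (rhoT 0 z) :=
  (continuous_rhoT 0).log fun z => (lt_of_lt_of_le (by norm_num) (half_le_rhoT 0 z)).ne'

theorem continuous_phiT : Continuous phiT :=
  (continuous_log_rhoT.comp (continuous_Gm 0)).neg

theorem phiT_proj (p : ℝ × ℝ) : phiT (proj p) = log (wv 0 p) := by
  unfold phiT wv
  rw [Gm_proj, rhoT_proj, log_inv]

theorem exists_bound_torus {u : Torus → ℝ} (hc : Continuous u) : ∃ M, ∀ z, |u z| ≤ M := by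
  obtain ⟨M, hM⟩ := isCompact_univ.exists_bound_of_continuousOn hc.continuousOn
  exact ⟨M, fun z => hM z (mem_univ _)⟩

theorem sub_one_le_mul_log {x : ℝ} (hx : 0 < x) : x - 1 ≤ x * log x := by
  have h := one_sub_inv_le_log_of_pos hx
  have h2 := mul_le_mul_of_nonneg_left h hx.le
  rwa [mul_sub, mul_inv_cancel₀ hx.ne', mul_one] at h2

theorem sub_one_lt_mul_log {x : ℝ} (hx : 0 < x) (h1 : x ≠ 1) : x - 1 < x * log x := by
  have h := log_lt_sub_one_of_pos (inv_pos.2 hx) (by simpa using h1)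
  rw [log_inv] at h
  have h2 := mul_lt_mul_of_pos_left h hx
  rw [mul_sub, mul_inv_cancel₀ hx.ne', mul_one] at h2
  linarith

/-- The entropy-like function `ρ log ρ` symmetrized by the half shift. -/
noncomputable def ent (z : Torus) : ℝ :=
  log (rhoT 0 z) * rhoT 0 z + log (2 - rhoT 0 z) * (2 - rhoT 0 z)

theorem ent_nonneg (z : Torus) : 0 ≤ ent z := by
  have h1 := half_le_rhoT 0 z
  have h2 := rhoT_le 0 z
  have h3 := sub_one_le_mul_log (x := rhoT 0 z) (by linarith)
  have h4 := sub_one_le_mul_log (x := 2 - rhoT 0 z) (by linarith)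
  unfold ent
  linarith

theorem ent_pos {z : Torus} (h : rhoT 0 z ≠ 1) : 0 < ent z := by
  have h1 := half_le_rhoT 0 z
  have h2 := rhoT_le 0 z
  have h3 := sub_one_lt_mul_log (x := rhoT 0 z) (by linarith) h
  have h4 := sub_one_le_mul_log (x := 2 - rhoT 0 z) (by linarith)
  unfold ent
  linarith

theorem continuous_ent : Continuous ent := by
  have h1 : Continuous fun z => log (2 - rhoT 0 z) :=
    (continuous_const.sub (continuous_rhoT 0)).log fun z => by
      have := rhoT_le 0 z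
      simp only [Pi.sub_apply]
      linarith [this]
  exact (continuous_log_rhoT.mul (continuous_rhoT 0)).add
    (h1.mul (continuous_const.sub (continuous_rhoT 0)))

theorem volume_singleton_zero : (volume : Measure UnitAddCircle) {0} = 0 := by
  have := AddCircle.volume_closedBall (T := 1) (x := (0 : UnitAddCircle)) 0
  simpa using this

theorem volume_zsmul_eq_zero {n : ℤ} (hn : n ≠ 0) :
    (volume : Measure UnitAddCircle) {x | n • x = 0} = 0 := by
  have h := (Measure.measurePreserving_zsmul (volume : Measure UnitAddCircle) hn).measure_preimage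
    (s := {0}) (measurableSet_singleton _).nullMeasurableSet
  rw [volume_singleton_zero] at h
  exact h

theorem ae_ent_pos : ∀ᵐ z ∂(volume : Measure Torus), 0 < ent z + ent (z + sh ((1 : ℤ) / 4)) := by
  have h1 : ∀ᵐ z ∂(volume : Measure Torus), (4 : ℤ) • z.1 ≠ 0 := by
    have := volume_zsmul_eq_zero (n := 4) (by norm_num)
    exact measurePreserving_fst.quasiMeasurePreserving.ae
      (p := fun x : UnitAddCircle => (4 : ℤ) • x ≠ 0) (measure_eq_zero_iff_ae_notMem.1 this)
  have h2 : ∀ᵐ z ∂(volume : Measure Torus), (2 : ℤ) • z.2 ≠ 0 := by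
    have := volume_zsmul_eq_zero (n := 2) (by norm_num)
    exact measurePreserving_snd.quasiMeasurePreserving.ae
      (p := fun x : UnitAddCircle => (2 : ℤ) • x ≠ 0) (measure_eq_zero_iff_ae_notMem.1 this)
  filter_upwards [h1, h2] with z hz1 hz2
  obtain ⟨p, rfl⟩ := surjective_proj z
  have hs : ∀ (k : ℤ) (x : ℝ), k • (x : UnitAddCircle) ≠ 0 → sin (k * π * x) ≠ 0 := by
    intro k x hx h
    apply hx
    obtain ⟨n, hn⟩ := sin_eq_zero_iff.1 h
    rw [← AddCircle.coe_zsmul, AddCircle.coe_eq_zero_iff]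
    refine ⟨n, ?_⟩
    simp only [zsmul_eq_mul, mul_one]
    have := pi_pos
    nlinarith
  have hb : dbeta 0 p.2 ≠ 0 := by
    have := hs 2 p.2 hz2
    unfold dbeta
    refine div_ne_zero (mul_ne_zero pi_ne_zero ?_) (by norm_num)
    convert this using 2
    push_cast
    ring
  have ha := hs 4 p.1 hz1
  push_cast at ha
  rcases ha.lt_or_gt with h | h
  · refine add_pos_of_pos_of_nonneg (ent_pos ?_) (ent_nonneg _)
    rw [rhoT_proj, rho]
    simp [amp_ne_zero h, hb]
  · refine add_pos_of_nonneg_of_pos (ent_nonneg _) (ent_pos ?_)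
    rw [proj_add_sh, rhoT_proj, rho]
    have h3 : sin (4 * π * (p.1 + ((1 : ℤ) : ℝ) / 4)) < 0 := by
      have : 4 * π * (p.1 + ((1 : ℤ) : ℝ) / 4) = 4 * π * p.1 + π := by push_cast; ring
      rw [this, sin_add_pi]
      linarith
    simp only [ne_eq, add_eq_left, mul_eq_zero, amp_ne_zero h3, hb, or_self, not_false_eq_true]

theorem setIntegral_phiT_neg (A : Set Torus) (hA : MeasurableSet A) (hinv : fm 0 ⁻¹' A = A)
    (hpos : (volume : Measure Torus) A ≠ 0) : ∫ z in A, phiT z < 0 := by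
  have hΨ : Measurable (A.indicator (1 : Torus → ℝ)) := measurable_one.indicator hA
  have hΨL : Measurable fun z => A.indicator (1 : Torus → ℝ) (Lm z) :=
    hΨ.comp measurePreserving_Lm.measurable
  have i1 : Integrable (fun z => A.indicator (1 : Torus → ℝ) (Lm z)) (volume : Measure Torus) :=
    integrable_of_bound hΨL fun z => abs_indicator_le A _
  have i2 : ∀ κ : Torus → ℝ, Continuous κ →
      Integrable (fun z => A.indicator (1 : Torus → ℝ) (Lm z) * κ z) (volume : Measure Torus) := by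
    intro κ hκ
    obtain ⟨M, hM⟩ := exists_bound_torus hκ
    exact i1.mul_bdd (c := M) hκ.aestronglyMeasurable (Eventually.of_forall hM)
  obtain ⟨M, hM⟩ := exists_bound_torus continuous_log_rhoT
  have h1 : ∫ z in A, phiT z =
      -∫ z, A.indicator (1 : Torus → ℝ) (Lm z) * (log (rhoT 0 z) * rhoT 0 z) := by
    simp only [← mul_assoc]
    rw [← cov 0 (Φ := fun z => A.indicator (1 : Torus → ℝ) (Lm z) * log (rhoT 0 z))
      (hΨL.mul continuous_log_rhoT.measurable) (C := M) (fun z => by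
      rw [abs_mul]
      have := abs_indicator_le A (Lm z)
      have := hM z
      have := abs_nonneg (log (rhoT 0 z))
      have := abs_nonneg (A.indicator (1 : Torus → ℝ) (Lm z))
      nlinarith), ← integral_neg, ← integral_indicator hA]
    congr 1
    funext z
    rw [← fm_eq]
    by_cases hz : z ∈ A
    · have : fm 0 z ∈ A := by rw [← hinv] at hz; exact hz
      simp [hz, this, phiT]
    · have : fm 0 z ∉ A := by rw [← hinv] at hz; exact hz
      simp [hz, this]
  have c1 : Continuous fun z => log (rhoT 0 z) * rhoT 0 z :=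
    continuous_log_rhoT.mul (continuous_rhoT 0)
  have h2 := integral_shift (A.indicator 1) (fun z => log (rhoT 0 z) * rhoT 0 z) 2
  have h3 : ∫ z, A.indicator (1 : Torus → ℝ) (Lm z) * ent z =
      2 * ∫ z, A.indicator (1 : Torus → ℝ) (Lm z) * (log (rhoT 0 z) * rhoT 0 z) := by
    rw [two_mul]
    nth_rewrite 2 [h2]
    rw [← integral_add (i2 _ c1) (i2 (fun z => log (rhoT 0 (z + sh ((2 : ℤ) / 4))) *
      rhoT 0 (z + sh ((2 : ℤ) / 4))) (c1.comp (continuous_add_const _)))]
    simp only [ent, mul_add, rhoT_add_half]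
  have h4 := integral_shift (A.indicator 1) ent 1
  have h5 : 0 < ∫ z, A.indicator (1 : Torus → ℝ) (Lm z) * (ent z + ent (z + sh ((1 : ℤ) / 4))) := by
    rw [integral_pos_iff_support_of_nonneg]
    · have h6 : (volume : Measure Torus) (Lm ⁻¹' A) ≠ 0 := by
        rwa [measurePreserving_Lm.measure_preimage hA.nullMeasurableSet]
      refine (pos_iff_ne_zero.2 h6).trans_le (measure_mono_ae ?_)
      filter_upwards [ae_ent_pos] with z hz hzA
      have : Lm z ∈ A := hzA
      simp only [Function.support]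
      show A.indicator (1 : Torus → ℝ) (Lm z) * _ ≠ 0
      rw [indicator_of_mem this, Pi.one_apply, one_mul]
      exact hz.ne'
    · intro z
      exact mul_nonneg (indicator_nonneg (fun _ _ => zero_le_one) _)
        (add_nonneg (ent_nonneg _) (ent_nonneg _))
    · exact i2 _ (continuous_ent.add (continuous_ent.comp (continuous_add_const _)))
  simp only [mul_add] at h5
  rw [integral_add (i2 _ continuous_ent) (i2 (fun z => ent (z + sh ((1 : ℤ) / 4)))
    (continuous_ent.comp (continuous_add_const _))), ← h4, h3] at h5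
  linarith

end Pool.Agent.MP_9eaa6a_an

end

-- part MP_9eaa6a_an.NUH
section

/-!
Non-uniform hyperbolicity of the skew product.
-/

set_option autoImplicit false

open Real Set Filter Topology MeasureTheory

namespace Pool.Agent.MP_9eaa6a_an

attribute [local instance] isProb_circle isProb_torus isHaar_torus

theorem euclid_nonneg (v : ℝ × ℝ) : 0 ≤ euclid v := sqrt_nonneg _

theorem abs_fst_le_euclid (v : ℝ × ℝ) : |v.1| ≤ euclid v :=
  abs_le_sqrt (by nlinarith [sq_nonneg v.2])

theorem abs_snd_le_euclid (v : ℝ × ℝ) : |v.2| ≤ euclid v :=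
  abs_le_sqrt (by nlinarith [sq_nonneg v.1])

theorem euclid_le (v : ℝ × ℝ) : euclid v ≤ |v.1| + |v.2| := by
  unfold euclid
  refine sqrt_le_iff.2 ⟨by positivity, ?_⟩
  have := mul_nonneg (abs_nonneg v.1) (abs_nonneg v.2)
  nlinarith [sq_abs v.1, sq_abs v.2]

theorem euclid_one_zero : euclid (1, 0) = 1 := by simp [euclid]

theorem euclid_zero_one : euclid (0, 1) = 1 := by simp [euclid]

theorem euclid_zero_left (d : ℝ) : euclid (0, d) = |d| := by simp [euclid, sqrt_sq_eq_abs]

section tri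

variable {A : ℝ × ℝ →L[ℝ] ℝ × ℝ} {K c d : ℝ}

theorem tri_le (hA : ∀ v, A v = (K * v.1, c * v.1 + d * v.2)) {v : ℝ × ℝ} (hv : euclid v = 1) :
    euclid (A v) ≤ |K| + |c| + |d| := by
  have h1 := abs_fst_le_euclid v
  have h2 := abs_snd_le_euclid v
  rw [hv] at h1 h2
  refine (euclid_le _).trans ?_
  rw [hA]
  have h3 := abs_add_le (c * v.1) (d * v.2)
  simp only [abs_mul] at h3 ⊢
  have := mul_le_of_le_one_right (abs_nonneg K) h1
  have := mul_le_of_le_one_right (abs_nonneg c) h1
  have := mul_le_of_le_one_right (abs_nonneg d) h2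
  linarith

theorem opNorm_le_tri (hA : ∀ v, A v = (K * v.1, c * v.1 + d * v.2)) :
    opNorm A ≤ |K| + |c| + |d| := by
  refine csSup_le ⟨_, ⟨(1, 0), euclid_one_zero, rfl⟩⟩ ?_
  rintro _ ⟨v, hv, rfl⟩
  exact tri_le hA hv

theorem le_opNorm_tri (hA : ∀ v, A v = (K * v.1, c * v.1 + d * v.2)) : |K| ≤ opNorm A := by
  refine le_csSup_of_le ⟨|K| + |c| + |d|, ?_⟩ ⟨(1, 0), euclid_one_zero, rfl⟩ ?_
  · rintro _ ⟨v, hv, rfl⟩
    exact tri_le hA hv
  · refine le_trans ?_ (abs_fst_le_euclid _)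
    simp [hA]

theorem coNorm_le_tri (hA : ∀ v, A v = (K * v.1, c * v.1 + d * v.2)) : coNorm A ≤ |d| := by
  refine csInf_le_of_le ⟨0, ?_⟩ ⟨(0, 1), euclid_zero_one, rfl⟩ ?_
  · rintro _ ⟨v, -, rfl⟩
    exact euclid_nonneg _
  · simp [hA, euclid_zero_left]

theorem le_coNorm_tri (hA : ∀ v, A v = (K * v.1, c * v.1 + d * v.2)) {M : ℝ} (hM : 0 ≤ M)
    (hd : 0 < d) (hdK : d ≤ K) (hc : |c| ≤ M * K) : d / (2 + M) ≤ coNorm A := by
  refine le_csInf ⟨_, ⟨(1, 0), euclid_one_zero, rfl⟩⟩ ?_
  rintro _ ⟨v, hv, rfl⟩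
  have h1 := abs_fst_le_euclid (A v)
  have h2 := abs_snd_le_euclid (A v)
  have h3 := euclid_le v
  rw [hv] at h3
  set E := euclid (A v)
  rw [hA] at h1 h2
  simp only [abs_mul, abs_of_pos (hd.trans_le hdK)] at h1 h2
  have h4 : d * |v.2| ≤ |c * v.1 + d * v.2| + |c| * |v.1| := by
    have := abs_sub (c * v.1 + d * v.2) (c * v.1)
    rwa [add_sub_cancel_left, abs_mul, abs_mul, abs_of_pos hd] at this
  have h5 : |c| * |v.1| ≤ M * E := by
    calc |c| * |v.1| ≤ M * K * |v.1| := mul_le_mul_of_nonneg_right hc (abs_nonneg _)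
      _ = M * (K * |v.1|) := by ring
      _ ≤ M * E := mul_le_mul_of_nonneg_left h1 hM
  have h6 : d * |v.1| ≤ K * |v.1| := mul_le_mul_of_nonneg_right hdK (abs_nonneg _)
  rw [div_le_iff₀ (by linarith)]
  have h7 := mul_le_mul_of_nonneg_left h3 hd.le
  show d ≤ E * (2 + M)
  nlinarith

end tri

theorem fderiv_iterate {M : ℝ} (hM : ∀ p, |uv 0 p| ≤ M) (n : ℕ) (p : ℝ × ℝ) :
    ∃ c d : ℝ, (∀ v, fderiv ℝ ((Fm 0)^[n]) p v = (4 ^ n * v.1, c * v.1 + d * v.2)) ∧
      |c| ≤ M * 4 ^ n ∧ 0 < d ∧ d ≤ 4 ^ n ∧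
      log d = birkhoffSum (fm 0) phiT n (proj p) := by
  induction n with
  | zero =>
    refine ⟨0, 1, fun v => by simp, ?_, one_pos, by simp, by simp⟩
    simpa using (abs_nonneg _).trans (hM p)
  | succ n ih =>
    obtain ⟨c, d, h1, h2, h3, h4, h5⟩ := ih
    set q := (Fm 0)^[n] p with hq
    have hw := wv_pos 0 q
    have hw2 := wv_le 0 q
    have hM0 : 0 ≤ M := (abs_nonneg _).trans (hM p)
    have hpow : (0 : ℝ) < 4 ^ n := by positivity
    refine ⟨uv 0 q * 4 ^ n + wv 0 q * c, wv 0 q * d, fun v => ?_, ?_, mul_pos hw h3, ?_, ?_⟩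
    · rw [Function.iterate_succ', fderiv_comp p (differentiable_Fm 0 _)
        ((differentiable_Fm 0).iterate n p), ContinuousLinearMap.comp_apply, h1, fderiv_Fm_apply]
      simp only [← hq, Prod.mk.injEq]
      constructor <;> ring
    · refine (abs_add_le _ _).trans ?_
      rw [abs_mul, abs_mul, abs_of_pos hpow, abs_of_pos hw, pow_succ]
      have e1 := mul_le_mul_of_nonneg_right (hM q) hpow.le
      have e2 := mul_le_mul hw2 h2 (abs_nonneg _) (by norm_num)
      have e3 := mul_nonneg hM0 hpow.le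
      linarith
    · rw [pow_succ]
      nlinarith
    · rw [log_mul hw.ne' h3.ne', h5, birkhoffSum_succ, iterate_fm_proj, phiT_proj, add_comm]

theorem tendsto_of_log_bounds {s u : ℕ → ℝ} {a C : ℝ}
    (hs : Tendsto (fun n : ℕ => s n / n) atTop (𝓝 a)) (h : ∀ n, |u n - s n| ≤ C) :
    Tendsto (fun n : ℕ => u n / n) atTop (𝓝 a) := by
  have h1 : Tendsto (fun n : ℕ => (u n - s n) / n) atTop (𝓝 0) := by
    refine squeeze_zero_norm (a := fun n : ℕ => C / n) (fun n => ?_)
      (tendsto_const_div_atTop_nhds_zero_nat C)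
    rw [Real.norm_eq_abs, abs_div, Nat.abs_cast]
    exact div_le_div_of_nonneg_right (h n) (Nat.cast_nonneg n)
  have h2 := h1.add hs
  rw [zero_add] at h2
  refine h2.congr fun n => ?_
  ring

theorem isNUH_Fm : IsNUH (Fm 0) := by
  obtain ⟨M, hM0, hM⟩ := exists_bound (per_uv 0)
    (continuous_uv.comp (f := fun p : ℝ × ℝ => ((0 : ℝ), p)) (by fun_prop))
  obtain ⟨C, hC⟩ := exists_bound_torus continuous_phiT
  have h1 := Pool.Agent.Lib.Birkhoff.ae_tendsto (measurePreserving_fm 0)
    continuous_phiT.measurable hC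
  have h2 := Pool.Agent.Lib.Birkhoff.ae_limit_neg (measurePreserving_fm 0)
    continuous_phiT.measurable (integrable_of_bound continuous_phiT.measurable hC)
    setIntegral_phiT_neg
  filter_upwards [h1, h2] with z hz1 hz2 p hp
  obtain ⟨a, ha⟩ := hz1
  subst hp
  have hlog : 0 ≤ log (2 + M) := log_nonneg (by linarith)
  refine ⟨a, log 4, hz2 a ha, log_pos (by norm_num), ?_, ?_⟩
  · refine tendsto_of_log_bounds (C := log (2 + M)) ha fun n => ?_
    obtain ⟨c, d, e1, e2, e3, e4, e5⟩ := fderiv_iterate hM n p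
    have l1 := coNorm_le_tri e1
    have l2 := le_coNorm_tri e1 hM0 e3 e4 e2
    rw [abs_of_pos e3] at l1
    have l3 : 0 < d / (2 + M) := div_pos e3 (by linarith)
    have l4 := log_le_log (l3.trans_le l2) l1
    have l5 := log_le_log l3 l2
    rw [log_div e3.ne' (by linarith)] at l5
    rw [← e5, abs_le]
    constructor <;> linarith
  · have hs : Tendsto (fun n : ℕ => (n * log 4) / n) atTop (𝓝 (log 4)) := by
      refine tendsto_const_nhds.congr' ?_
      filter_upwards [eventually_gt_atTop 0] with n hn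
      have : (n : ℝ) ≠ 0 := by exact_mod_cast hn.ne'
      field_simp
    refine tendsto_of_log_bounds (C := log (2 + M)) hs fun n => ?_
    obtain ⟨c, d, e1, e2, e3, e4, -⟩ := fderiv_iterate hM n p
    have l1 := opNorm_le_tri e1
    have l2 := le_opNorm_tri e1
    have hpow : (0 : ℝ) < 4 ^ n := by positivity
    rw [abs_of_pos hpow] at l1 l2
    rw [abs_of_pos e3] at l1
    have l3 : opNorm (fderiv ℝ ((Fm 0)^[n]) p) ≤ (2 + M) * 4 ^ n := by linarith
    have l4 := log_le_log (hpow.trans_le l2) l3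
    have l5 := log_le_log hpow l2
    rw [log_mul (by linarith) hpow.ne'] at l4
    rw [log_pow] at l4 l5
    rw [abs_le]
    constructor <;> linarith

/-- The maps `Fm t` converge to `Fm 0` uniformly together with their derivatives. -/
theorem eventually_close {ε : ℝ} (hε : 0 < ε) : ∀ᶠ t in 𝓝 (0 : ℝ), ∀ p,
    euclid (Fm t p - Fm 0 p) < ε ∧ opNorm (fderiv ℝ (Fm t) p - fderiv ℝ (Fm 0) p) < ε := by
  have h := uniform_small (fun t p => |gmap t p.1 p.2 - gmap 0 p.1 p.2| +
    (|uv t p - uv 0 p| + |wv t p - wv 0 p|)) (by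
      have h1 := continuous_gmap'
      have h2 := continuous_uv
      have h3 := continuous_wv
      have h4 : Continuous fun q : ℝ × (ℝ × ℝ) => ((0 : ℝ), q.2) := by fun_prop
      exact (h1.sub (h1.comp h4)).abs.add ((h2.sub (h2.comp h4)).abs.add
        (h3.sub (h3.comp h4)).abs))
    (fun t p m n => by
      have e1 := per_uv t p m n
      have e2 := per_uv 0 p m n
      have e3 := per_wv t p m n
      have e4 := per_wv 0 p m n
      simp only [e1, e2, e3, e4, gmap_add_int, add_sub_add_right_eq_sub])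
    (fun p => by simp) hε
  filter_upwards [h] with t ht p
  have h1 := ht p
  have n1 := abs_nonneg (gmap t p.1 p.2 - gmap 0 p.1 p.2)
  have n2 := abs_nonneg (uv t p - uv 0 p)
  have n3 := abs_nonneg (wv t p - wv 0 p)
  constructor
  · have : Fm t p - Fm 0 p = (0, gmap t p.1 p.2 - gmap 0 p.1 p.2) := by simp [Fm]
    rw [this, euclid_zero_left]
    linarith
  · have := opNorm_le_tri (A := fderiv ℝ (Fm t) p - fderiv ℝ (Fm 0) p) (K := 0)
      (c := uv t p - uv 0 p) (d := wv t p - wv 0 p) (fun v => by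
        rw [sub_apply, fderiv_Fm_apply, fderiv_Fm_apply]
        simp only [Prod.mk_sub_mk, Prod.mk.injEq]
        constructor <;> ring)
    rw [abs_zero] at this
    linarith

theorem not_ergodic {t : ℝ} (h0 : 0 < t) (h1 : t < 1) :
    ¬ Ergodic (fm t) (volume : Measure Torus) := by
  intro h
  let A : Set Torus := proj '' {p | p.2 ∈ Ioo 0 t}
  let B : Set Torus := proj '' {p | p.2 ∈ Ioo t 1}
  have hAo : IsOpen A := isOpenQuotientMap_proj.isOpenMap _ (isOpen_Ioo.preimage continuous_snd)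
  have hBo : IsOpen B := isOpenQuotientMap_proj.isOpenMap _ (isOpen_Ioo.preimage continuous_snd)
  have hmem : ∀ p : ℝ × ℝ, p.2 ∈ Ico (0 : ℝ) 1 → (proj p ∈ A ↔ p.2 ∈ Ioo 0 t) := by
    intro p hp
    refine ⟨?_, fun h => ⟨p, h, rfl⟩⟩
    rintro ⟨q, hq, hqp⟩
    have h2 : (q.2 : UnitAddCircle) = (p.2 : UnitAddCircle) := congrArg Prod.snd hqp
    rw [AddCircle.coe_eq_coe_iff_of_mem_Ico (a := 0) ⟨hq.1.le, by linarith [hq.2]⟩
      (by simpa using hp)] at h2
    rw [← h2]
    exact hq
  have hinv : fm t ⁻¹' A = A := by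
    ext z
    obtain ⟨p, -, hp, rfl⟩ := exists_proj_eq_Ico z
    have g0 := gmap_of_beta_eq_zero t p.1 (beta_zero t)
    have g1 := gmap_of_beta_eq_zero t p.1 (beta_one t)
    have gt := gmap_of_beta_eq_zero t p.1 (beta_self t)
    have hm := strictMono_gmap t p.1
    rw [mem_preimage, fm_proj, hmem p hp, hmem _
      ⟨by rw [← g0]; exact hm.monotone hp.1, by rw [← g1]; exact hm hp.2⟩]
    simp only [Fm, mem_Ioo]
    rw [← hm.lt_iff_lt (a := 0) (b := p.2), ← hm.lt_iff_lt (a := p.2) (b := t), g0, gt]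
  have hA := hAo.measure_pos (volume : Measure Torus) ⟨_, ⟨(0, t / 2), ⟨by simp; linarith,
    by simp; linarith⟩, rfl⟩⟩
  have hB := hBo.measure_pos (volume : Measure Torus) ⟨_, ⟨(0, (t + 1) / 2), ⟨by simp; linarith,
    by simp; linarith⟩, rfl⟩⟩
  rcases h.toPreErgodic.measure_self_or_compl_eq_zero hAo.measurableSet hinv with h2 | h2
  · exact hA.ne' h2
  · refine hB.ne' (measure_mono_null ?_ h2)
    rintro _ ⟨p, hp, rfl⟩ hpA
    rw [hmem p ⟨by linarith [hp.1], hp.2⟩] at hpA
    exact lt_asymm hp.1 hpA.2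

end Pool.Agent.MP_9eaa6a_an

end

-- part MP_9eaa6a_an.Transitive
section

/-!
Topological transitivity of the unperturbed skew product.
-/

set_option autoImplicit false

open Real Set Filter Topology

namespace Pool.Agent.MP_9eaa6a_an

theorem isOpenMap_Fm (t : ℝ) : IsOpenMap (Fm t) := by
  let e : (ℝ × ℝ) ≃ₜ (ℝ × ℝ) :=
    { toFun := Fm t
      invFun := fun p => (p.1 / 4, hmap t (p.1 / 4) p.2)
      left_inv := fun p => by
        have : 4 * p.1 / 4 = p.1 := by ring
        simp only [Fm, this, hmap_gmap]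
      right_inv := fun p => by
        have : 4 * (p.1 / 4) = p.1 := by ring
        simp only [Fm, this, gmap_hmap]
      continuous_toFun := (contDiff_Fm t 0).continuous
      continuous_invFun := (continuous_fst.div_const 4).prodMk
        ((contDiff_hmap 0).continuous.comp (f := fun p : ℝ × ℝ => ((t, p.1 / 4), p.2))
          (by fun_prop)) }
  exact e.isOpenMap

theorem isOpenMap_fm (t : ℝ) : IsOpenMap (fm t) := by
  refine IsOpenMap.of_comp continuous_proj surjective_proj ?_
  have : fm t ∘ proj = proj ∘ Fm t := funext (fm_proj t)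
  rw [this]
  exact isOpenQuotientMap_proj.isOpenMap.comp (isOpenMap_Fm t)

/-- An open set of reals which is closed under small steps in both directions fills `(0, 1)`. -/
theorem fill_interval {L : Set ℝ} (hL : IsOpen L) {y₀ : ℝ} (hy₀ : y₀ ∈ L) (h0 : y₀ ∈ Ioo (0 : ℝ) 1)
    (hstep : ∀ r ∈ Ioo (0 : ℝ) 1, ∀ δ > 0, ∃ s, 0 < s ∧ s < δ ∧
      (r + s ∈ L → r ∈ L) ∧ (r - s ∈ L → r ∈ L)) {y : ℝ} (hy : y ∈ Ioo (0 : ℝ) 1) : y ∈ L := by
  by_contra hyL
  rcases le_total y₀ y with h | h
  · obtain ⟨r, hr, hmin⟩ := (isCompact_Icc.diff hL (s := Icc y₀ y)).exists_isLeast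
      ⟨y, ⟨h, le_rfl⟩, hyL⟩
    have hr0 : y₀ < r := lt_of_le_of_ne hr.1.1 fun e => hr.2 (e ▸ hy₀)
    obtain ⟨s, hs0, hs1, -, hs⟩ := hstep r ⟨h0.1.trans hr0, hr.1.2.trans_lt hy.2⟩ (r - y₀)
      (sub_pos.2 hr0)
    refine hr.2 (hs ?_)
    by_contra hn
    have := hmin ⟨⟨by linarith, by linarith [hr.1.2]⟩, hn⟩
    linarith
  · obtain ⟨r, hr, hmax⟩ := (isCompact_Icc.diff hL (s := Icc y y₀)).exists_isGreatest
      ⟨y, ⟨le_rfl, h⟩, hyL⟩
    have hr0 : r < y₀ := lt_of_le_of_ne hr.1.2 fun e => hr.2 (e ▸ hy₀)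
    obtain ⟨s, hs0, hs1, hs, -⟩ := hstep r ⟨hy.1.trans_le hr.1.1, hr0.trans h0.2⟩ (y₀ - r)
      (sub_pos.2 hr0)
    refine hr.2 (hs ?_)
    by_contra hn
    have := hmax ⟨⟨by linarith [hr.1.1], by linarith⟩, hn⟩
    linarith

section invariant

variable {W : Set Torus} (hW : IsOpen W) (hf : ∀ z ∈ W, fm 0 z ∈ W)

include hf in
theorem step_mem {x y : ℝ} (h : proj (x, y) ∈ W) : proj (4 * x, gmap 0 x y) ∈ W := by
  have := hf _ h
  rwa [fm_proj] at this

include hf in
theorem push_mem (y : ℝ) (m : ℕ) {x : ℝ} (h0 : 0 ≤ x) (h1 : x ≤ 1)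
    (h : proj (x / 4 ^ m, y) ∈ W) : proj (x, y) ∈ W := by
  induction m with
  | zero => simpa using h
  | succ m ih =>
    apply ih
    have h2 := step_mem hf h
    have hp : (1 : ℝ) ≤ 4 ^ m := one_le_pow₀ (by norm_num)
    have h3 : x / 4 ^ (m + 1) ≤ 1 / 4 := by
      rw [div_le_div_iff₀ (by positivity) (by norm_num), pow_succ]
      nlinarith
    rw [gmap_of_amp_eq_zero 0 (amp_eq_zero (by positivity) h3)] at h2
    have h4 : 4 * (x / 4 ^ (m + 1)) = x / 4 ^ m := by
      rw [pow_succ]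
      field_simp
    rwa [h4] at h2

include hW hf in
theorem spread_mem {y : ℝ} (h : proj (0, y) ∈ W) (x : ℝ) : proj (x, y) ∈ W := by
  have key : ∀ x : ℝ, 0 ≤ x → x ≤ 1 → proj (x, y) ∈ W := by
    intro x h0 h1
    have ht : Tendsto (fun m : ℕ => proj (x / 4 ^ m, y)) atTop (𝓝 (proj (0, y))) := by
      refine (continuous_proj.tendsto _).comp (Tendsto.prodMk_nhds ?_ tendsto_const_nhds)
      exact tendsto_const_nhds.div_atTop (tendsto_pow_atTop_atTop_of_one_lt (by norm_num))
    obtain ⟨m, hm⟩ := (ht.eventually (hW.mem_nhds h)).exists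
    exact push_mem hf y m h0 h1 hm
  have h1 := key (Int.fract x) (Int.fract_nonneg x) (Int.fract_lt_one x).le
  have h2 : proj (Int.fract x, y) = proj (x, y) := proj_eq_iff.2 ⟨⌊x⌋, 0, by simp⟩
  rwa [h2] at h1

include hf in
theorem return_mem {y : ℝ} (m : ℕ) (k : ℤ) (h : proj (1 / 4 ^ m + k, y) ∈ W) :
    proj (0, y) ∈ W := by
  have h1 : proj (1 / 4 ^ m + k, y) = proj (1 / 4 ^ m, y) :=
    (proj_eq_iff.2 ⟨k, 0, by simp⟩).symm
  rw [h1] at h
  have h2 := push_mem hf y m zero_le_one le_rfl h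
  have h3 : proj (0, y) = proj (1, y) := proj_eq_iff.2 ⟨1, 0, by simp⟩
  rwa [h3]

include hf in
theorem dyadic_mem (n : ℕ) (j : ℤ) {y : ℝ} (hy : y ∈ Ioo (0 : ℝ) 1)
    (h : proj (j / 4 ^ n, y) ∈ W) : ∃ y' ∈ Ioo (0 : ℝ) 1, proj (0, y') ∈ W := by
  induction n generalizing y with
  | zero =>
    refine ⟨y, hy, ?_⟩
    have h3 : proj (0, y) = proj (j / 4 ^ 0, y) := proj_eq_iff.2 ⟨j, 0, by simp⟩
    rwa [h3]
  | succ n ih =>
    have h2 := step_mem hf h
    have h4 : 4 * ((j : ℝ) / 4 ^ (n + 1)) = j / 4 ^ n := by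
      rw [pow_succ]
      field_simp
    rw [h4] at h2
    refine ih ?_ h2
    have g0 := gmap_of_beta_eq_zero 0 ((j : ℝ) / 4 ^ (n + 1)) (beta_zero 0)
    have g1 := gmap_of_beta_eq_zero 0 ((j : ℝ) / 4 ^ (n + 1)) (beta_one 0)
    exact ⟨g0.symm.trans_lt (strictMono_gmap 0 _ hy.1), (strictMono_gmap 0 _ hy.2).trans_eq g1⟩

theorem dense_strip : Dense (proj '' {p | p.2 ∈ Ioo (0 : ℝ) 1}) := by
  intro z
  obtain ⟨p, -, hp, rfl⟩ := exists_proj_eq_Ico z
  refine image_closure_subset_closure_image continuous_proj ⟨p, ?_, rfl⟩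
  have : {p : ℝ × ℝ | p.2 ∈ Ioo (0 : ℝ) 1} = univ ×ˢ Ioo 0 1 := by
    ext q
    simp
  rw [this, closure_prod_eq, closure_univ, closure_Ioo (by norm_num)]
  exact ⟨mem_univ _, Ico_subset_Icc_self hp⟩

include hW hf in
theorem dense_of_invariant (hne : W.Nonempty) : Dense W := by
  -- a starting point on the fibre over zero
  obtain ⟨_, hz, ⟨p, hp, rfl⟩⟩ := dense_strip.inter_open_nonempty W hW hne
  have ht : Tendsto (fun n : ℕ => proj ((⌊p.1 * 4 ^ n⌋ : ℝ) / 4 ^ n, p.2)) atTop
      (𝓝 (proj (p.1, p.2))) := by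
    refine (continuous_proj.tendsto _).comp (Tendsto.prodMk_nhds ?_ tendsto_const_nhds)
    have h1 : Tendsto (fun n : ℕ => p.1 - 1 / (4 : ℝ) ^ n) atTop (𝓝 (p.1 - 0)) :=
      tendsto_const_nhds.sub
        (tendsto_const_nhds.div_atTop (tendsto_pow_atTop_atTop_of_one_lt (by norm_num)))
    rw [sub_zero] at h1
    refine tendsto_of_tendsto_of_tendsto_of_le_of_le h1 tendsto_const_nhds (fun n => ?_)
      (fun n => ?_)
    · have hpos : (0 : ℝ) < 4 ^ n := by positivity
      rw [le_div_iff₀ hpos, sub_mul, one_div, inv_mul_cancel₀ hpos.ne']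
      exact (Int.sub_one_lt_floor _).le
    · have hpos : (0 : ℝ) < 4 ^ n := by positivity
      rw [div_le_iff₀ hpos]
      exact Int.floor_le _
  obtain ⟨n, hn⟩ := (ht.eventually (hW.mem_nhds hz)).exists
  obtain ⟨y₀, hy₀, hW₀⟩ := dyadic_mem hf n _ hp hn
  have hL : IsOpen {y : ℝ | proj (0, y) ∈ W} :=
    hW.preimage (continuous_proj.comp (continuous_const.prodMk continuous_id))
  have hfill : ∀ y ∈ Ioo (0 : ℝ) 1, proj (0, y) ∈ W := by
    intro y hy
    refine fill_interval hL hW₀ hy₀ (fun r hr δ hδ => ?_) hy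
    have hb := beta_zero_pos hr.1 hr.2
    have ht2 : Tendsto (fun m : ℕ => amp ((1 / 4 ^ (m + 1) + 1) / 4) * beta 0 r) atTop
        (𝓝 (amp ((0 + 1) / 4) * beta 0 r)) := by
      refine Tendsto.mul_const _ (((contDiff_amp 0).continuous.tendsto _).comp ?_)
      refine (Tendsto.add_const _ ?_).div_const _
      exact tendsto_const_nhds.div_atTop
        ((tendsto_pow_atTop_atTop_of_one_lt (by norm_num)).comp (tendsto_add_atTop_nat 1))
    rw [amp_eq_zero (by norm_num) (by norm_num), zero_mul] at ht2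
    obtain ⟨m, hm⟩ := (ht2.eventually (gt_mem_nhds hδ)).exists
    set x : ℝ := (1 / 4 ^ (m + 1) + 1) / 4 with hx
    have hq : (0 : ℝ) < 1 / 4 ^ (m + 1) := by positivity
    have hq1 : (1 : ℝ) / 4 ^ (m + 1) < 1 := by
      rw [div_lt_one (by positivity)]
      exact one_lt_pow₀ (by norm_num) (by omega)
    have ha : 0 < amp x := amp_pos (by rw [hx]; linarith) (by rw [hx]; linarith)
    refine ⟨amp x * beta 0 r, mul_pos ha hb, hm, fun h => ?_, fun h => ?_⟩
    · have h1 := step_mem hf (spread_mem hW hf h x)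
      have h2 : r + amp x * beta 0 r = hmap 0 x r := rfl
      have h3 : 4 * x = 1 / 4 ^ (m + 1) + ((1 : ℤ) : ℝ) := by rw [hx]; push_cast; ring
      rw [h2, gmap_hmap, h3] at h1
      exact return_mem hf _ _ h1
    · have h1 := step_mem hf (spread_mem hW hf h (x + 1 / 2))
      have h2 : r - amp x * beta 0 r = hmap 0 (x + 1 / 2) r := by
        rw [hmap, amp_add_half]; ring
      have h3 : 4 * (x + 1 / 2) = 1 / 4 ^ (m + 1) + ((3 : ℤ) : ℝ) := by rw [hx]; push_cast; ring
      rw [h2, gmap_hmap, h3] at h1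
      exact return_mem hf _ _ h1
  refine dense_strip.mono ?_
  rintro _ ⟨q, hq, rfl⟩
  exact spread_mem hW hf (hfill q.2 hq) q.1

end invariant

theorem isTransitive_fm : IsTransitive (fm 0) := by
  obtain ⟨B, hBc, hBne, hB⟩ := TopologicalSpace.exists_countable_basis Torus
  have hd : Dense (⋂ V ∈ B, ⋃ n : ℕ, (fm 0)^[n] ⁻¹' V) := by
    refine dense_biInter_of_isOpen (fun V hV => isOpen_iUnion fun n =>
      (hB.isOpen hV).preimage ((continuous_fm 0).iterate n)) hBc fun V hV => ?_
    rw [dense_iff_inter_open]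
    intro U hU hUne
    have hW : IsOpen (⋃ n : ℕ, (fm 0)^[n] '' U) := by
      refine isOpen_iUnion fun n => ?_
      induction n with
      | zero => simpa using hU
      | succ n ih =>
        rw [Function.iterate_succ', image_comp]
        exact isOpenMap_fm 0 _ ih
    have hD := dense_of_invariant hW (fun z hz => by
      obtain ⟨n, u, hu, rfl⟩ := mem_iUnion.1 hz
      exact mem_iUnion.2 ⟨n + 1, u, hu, Function.iterate_succ_apply' _ _ _⟩)
      (hUne.mono fun u hu => mem_iUnion.2 ⟨0, u, hu, rfl⟩)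
    obtain ⟨v, hv, hv'⟩ := hD.inter_open_nonempty V (hB.isOpen hV)
      (nonempty_iff_ne_empty.2 fun h => hBne (h ▸ hV))
    obtain ⟨n, u, hu, rfl⟩ := mem_iUnion.1 hv'
    exact ⟨u, hu, mem_iUnion.2 ⟨n, hv⟩⟩
  obtain ⟨z, hz⟩ := hd.nonempty
  refine ⟨z, hB.dense_iff.2 fun V hV _ => ?_⟩
  obtain ⟨n, hn⟩ := mem_iUnion.1 (mem_iInter₂.1 hz V hV)
  exact ⟨_, hn, n, rfl⟩

end Pool.Agent.MP_9eaa6a_an

end
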